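import Pool.Agent.Lib.MP_26f323_al.Main

set_option autoImplicit false

/-!
# An AS-free primitive permutation group of diagonal type

The normalizer of `A₅⁴` in its action on the `60³ = 216000` cosets of the diagonal is a primitive
group of diagonal type with four simple factors; the trivial scheme is the only invariant
association scheme.
-/

namespace Pool.Agent.Results.MP_26f323_al.DiagonalASFree

open Equiv MP26f323 MP26f323.Grp

/-- `N` is a minimal normal subgroup of `G`. -/
def IsMinimalNormal {G : Type} [Group G] (N : Subgroup G) : Prop :=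
  N.Normal ∧ N ≠ ⊥ ∧ ∀ M : Subgroup G, M.Normal → M ≠ ⊥ → M ≤ N → M = N

/-- The socle of `G`: the subgroup generated by all minimal normal subgroups. -/
def socle (G : Type) [Group G] : Subgroup G := sSup {N | IsMinimalNormal N}

/-- `G` is a primitive permutation group of diagonal type on `Ω`, with socle `T^m`: `G` is primitive,
`T` is a nonabelian simple group, `m ≥ 2`, there is an isomorphism `φ` of `T^m` onto the socle of
`G`, and the stabiliser in the socle of any point `ω` is a full diagonal subgroup, i.e. it is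
`φ {(α₁(t), …, α_m(t)) | t ∈ T}` for some automorphisms `α₁, …, α_m` of `T`. -/
def IsDiagonalType {Ω : Type} (G : Subgroup (Perm Ω)) (T : Type) [Group T] (m : ℕ) : Prop :=
  MulAction.IsPreprimitive G Ω ∧ IsSimpleGroup T ∧ (∃ a b : T, a * b ≠ b * a) ∧ 2 ≤ m ∧
  ∃ φ : (Fin m → T) ≃* socle G, ∀ ω : Ω, ∃ α : Fin m → MulAut T, ∀ u : Fin m → T,
    ((φ u : G) : Perm Ω) ω = ω ↔ ∃ t : T, u = fun i => α i t

/-- `S` is (the set of classes of) an association scheme on `Ω`: a partition of `Ω × Ω`, one class
is the diagonal, all classes are symmetric, and for classes `R`, `R'`, `R''` and `(x, y) ∈ R''` the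
number of `z` with `(x, z) ∈ R`, `(z, y) ∈ R'` depends only on `R`, `R'`, `R''`. -/
structure IsScheme {Ω : Type} (S : Set (Set (Ω × Ω))) : Prop where
  partition : Setoid.IsPartition S
  diagonal : {p : Ω × Ω | p.1 = p.2} ∈ S
  symmetric : ∀ R ∈ S, ∀ x y : Ω, (x, y) ∈ R → (y, x) ∈ R
  regular : ∀ R ∈ S, ∀ R' ∈ S, ∀ R'' ∈ S, ∀ x y x' y' : Ω, (x, y) ∈ R'' → (x', y') ∈ R'' →
    Set.ncard {z : Ω | (x, z) ∈ R ∧ (z, y) ∈ R'} = Set.ncard {z : Ω | (x', z) ∈ R ∧ (z, y') ∈ R'}

/-- The classes of the trivial scheme. -/
def trivialScheme (Ω : Type) : Set (Set (Ω × Ω)) :=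
  {{p : Ω × Ω | p.1 = p.2}, {p : Ω × Ω | p.1 ≠ p.2}}

/-- Every class of `S` is mapped to itself by `G` acting coordinatewise on `Ω × Ω`. -/
def IsInvariant {Ω : Type} (G : Subgroup (Perm Ω)) (S : Set (Set (Ω × Ω))) : Prop :=
  ∀ g ∈ G, ∀ R ∈ S, (fun p : Ω × Ω => (g p.1, g p.2)) '' R = R

/-- `G` is AS-free: the trivial scheme is the only `G`-invariant association scheme on `Ω`. -/
def IsASFree {Ω : Type} (G : Subgroup (Perm Ω)) : Prop :=
  ∀ S : Set (Set (Ω × Ω)), IsScheme S ∧ IsInvariant G S ↔ S = trivialScheme Ω

/-! ### The socle -/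

section Socle

variable {T : Type} [Group T]

/-- The action with values in `GG T`. -/
def actG : (Fin 4 → T) →* GG T := (act (T := T)).codRestrict (GG T) act_mem

theorem actG_coe (g : Fin 4 → T) : ((actG g : GG T) : Perm (T × T × T)) = act g := rfl

theorem actG_inj (hna : ∃ a b : T, a * b ≠ b * a) [IsSimpleGroup T] :
    Function.Injective (actG (T := T)) := by
  intro g h hgh
  exact act_inj hna (congrArg Subtype.val hgh)

theorem range_normal : ((actG (T := T)).range).Normal := by
  refine ⟨?_⟩
  rintro _ ⟨g, rfl⟩ p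
  have hp : (p : Perm (T × T × T)) ∈
      Subgroup.normalizer ((act (T := T)).range : Set (Perm (T × T × T))) := p.2
  rw [Subgroup.mem_normalizer_iff] at hp
  obtain ⟨h, hh⟩ := (hp (act g)).1 ⟨g, rfl⟩
  exact ⟨h, Subtype.ext hh⟩

/-- Conjugation by the permutation of the coordinates. -/
theorem pS_conj (σ : Perm (Fin 4)) (g : Fin 4 → T) :
    (⟨pS σ, pS_mem σ⟩ : GG T) * actG g * (⟨pS σ, pS_mem σ⟩ : GG T)⁻¹ = actG (g ∘ σ) := by
  rw [mul_inv_eq_iff_eq_mul]
  apply Subtype.ext
  exact permOf_act (shuffle σ) (fun d => ⟨d, rfl⟩) (fun d => ⟨d, rfl⟩) g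

theorem center_trivial [IsSimpleGroup T] (hna : ∃ a b : T, a * b ≠ b * a) (t : T)
    (h : ∀ x, t * x = x * t) : t = 1 := by
  have h5 : t ∈ Subgroup.center T := Subgroup.mem_center_iff.2 fun x => (h x).symm
  rcases (inferInstance : (Subgroup.center T).Normal).eq_bot_or_eq_top with h6 | h6
  · rwa [h6, Subgroup.mem_bot] at h5
  · exfalso
    obtain ⟨a, b, hab⟩ := hna
    have : b ∈ Subgroup.center T := by rw [h6]; exact Subgroup.mem_top b
    exact hab (Subgroup.mem_center_iff.1 this a)

/-- A nontrivial normal subgroup contains `T⁴`. -/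
theorem range_le [IsSimpleGroup T] (hna : ∃ a b : T, a * b ≠ b * a) (M : Subgroup (GG T))
    (hM : M.Normal) (hne : M ≠ ⊥) : (actG (T := T)).range ≤ M := by
  by_cases hH : ∃ g : Fin 4 → T, g ≠ 1 ∧ actG g ∈ M
  · obtain ⟨g, hg1, hgM⟩ := hH
    obtain ⟨i, hi⟩ : ∃ i, g i ≠ 1 := by
      by_contra hcon
      push Not at hcon
      exact hg1 (funext hcon)
    obtain ⟨d, hd⟩ : ∃ d, g i * d ≠ d * g i := by
      by_contra hcon
      push Not at hcon
      exact hi (center_trivial hna _ hcon)
    -- the part of `M` in the `i`-th factor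
    let K : Subgroup T := M.comap (actG.comp (MonoidHom.mulSingle (fun _ : Fin 4 => T) i))
    have hK : ∀ t, t ∈ K ↔ actG (Pi.mulSingle i t) ∈ M := fun t => Iff.rfl
    have hKn : K.Normal := by
      refine ⟨fun t ht d => ?_⟩
      rw [hK] at ht ⊢
      have := hM.conj_mem _ ht (actG (Pi.mulSingle i d))
      rw [← map_inv, ← map_mul, ← map_mul, ← Pi.mulSingle_inv, ← Pi.mulSingle_mul,
        ← Pi.mulSingle_mul] at this
      exact this
    have hKt : g i * d * (g i)⁻¹ * d⁻¹ ∈ K := by
      rw [hK]
      have e : (Pi.mulSingle i (g i * d * (g i)⁻¹ * d⁻¹) : Fin 4 → T) =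
          g * (Pi.mulSingle i d * g⁻¹ * (Pi.mulSingle i d)⁻¹) := by
        funext j
        by_cases hj : j = i
        · subst hj
          simp [mul_assoc]
        · simp [Pi.mulSingle_eq_of_ne hj]
      rw [e, map_mul]
      refine M.mul_mem hgM ?_
      rw [map_mul, map_mul, map_inv, map_inv]
      exact hM.conj_mem _ (M.inv_mem hgM) _
    have htop : K = ⊤ := by
      rcases hKn.eq_bot_or_eq_top with h | h
      · exfalso
        rw [h, Subgroup.mem_bot, mul_inv_eq_one, mul_inv_eq_iff_eq_mul] at hKt
        exact hd hKt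
      · exact h
    have hall : ∀ (j : Fin 4) (t : T), actG (Pi.mulSingle j t) ∈ M := by
      intro j t
      have h1 : actG (Pi.mulSingle i t) ∈ M := by
        rw [← hK, htop]
        exact Subgroup.mem_top _
      have h2 := hM.conj_mem _ h1 ⟨pS (swap i j), pS_mem _⟩
      rw [pS_conj] at h2
      have e : (Pi.mulSingle i t : Fin 4 → T) ∘ swap i j = Pi.mulSingle j t := by
        funext k
        rw [Function.comp_apply]
        by_cases hk : k = j
        · subst hk
          rw [swap_apply_right, Pi.mulSingle_eq_same, Pi.mulSingle_eq_same]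
        · rw [Pi.mulSingle_eq_of_ne hk, Pi.mulSingle_eq_of_ne]
          intro h
          have h3 : swap i j (swap i j k) = swap i j i := by rw [h]
          rw [swap_apply_self, swap_apply_left] at h3
          exact hk h3
      rw [e] at h2
      exact h2
    rintro _ ⟨u, rfl⟩
    have e : u = Pi.mulSingle 0 (u 0) * Pi.mulSingle 1 (u 1) * Pi.mulSingle 2 (u 2) *
        Pi.mulSingle 3 (u 3) := by
      funext i
      fin_cases i <;> simp
    rw [e, map_mul, map_mul, map_mul]
    exact M.mul_mem (M.mul_mem (M.mul_mem (hall _ _) (hall _ _)) (hall _ _)) (hall _ _)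
  · -- `M` meets `T⁴` trivially, so it centralises `T⁴`
    exfalso
    push Not at hH
    apply hne
    rw [eq_bot_iff]
    intro p hp
    have hcomm : ∀ g : Fin 4 → T, (p : Perm (T × T × T)) * act g = act g * p := by
      intro g
      have h1 : p * (actG g * p⁻¹ * (actG g)⁻¹) ∈ M :=
        M.mul_mem hp (hM.conj_mem _ (M.inv_mem hp) _)
      obtain ⟨h, hh⟩ := range_normal.conj_mem (actG g) ⟨g, rfl⟩ p
      have e : p * (actG g * p⁻¹ * (actG g)⁻¹) = actG (h * g⁻¹) := by
        rw [map_mul, hh, map_inv]
        group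
      have h2 : h * g⁻¹ = 1 := by
        by_contra hcon
        refine hH _ hcon ?_
        rw [← e]
        exact h1
      rw [h2, map_one] at e
      have e2 : p * actG g = actG g * p := by
        have := congrArg (· * (actG g * p)) e
        simp only [one_mul] at this
        rw [← this]
        group
      exact congrArg Subtype.val e2
    have hx0 : ∀ g : Fin 4 → T, (p : Perm (T × T × T)) (act g 1) = act g ((p : Perm (T × T × T)) 1) := by
      intro g
      have := congrArg (fun q : Perm (T × T × T) => q 1) (hcomm g)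
      exact this
    have hp1 : (p : Perm (T × T × T)) 1 = 1 := by
      have h3 : ∀ d : T, act (fun _ => d) ((p : Perm (T × T × T)) 1) =
          (p : Perm (T × T × T)) 1 := by
        intro d
        rw [← hx0, act_one']
        have : proj (fun _ : Fin 4 => d) = 1 := by simp [proj, Prod.ext_iff]
        rw [this]
      rcases hx : (p : Perm (T × T × T)) 1 with ⟨a, b, c⟩
      rw [hx] at h3
      have h4 : ∀ d : T, d * a * d⁻¹ = a ∧ d * b * d⁻¹ = b ∧ d * c * d⁻¹ = c := by
        intro d
        have := h3 d
        rw [act_apply] at this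
        simpa [proj, lift, Prod.ext_iff] using this
      have ha : a = 1 := center_trivial hna a fun x => by
        have := (h4 x).1
        rw [mul_inv_eq_iff_eq_mul] at this
        exact this.symm
      have hb : b = 1 := center_trivial hna b fun x => by
        have := (h4 x).2.1
        rw [mul_inv_eq_iff_eq_mul] at this
        exact this.symm
      have hc : c = 1 := center_trivial hna c fun x => by
        have := (h4 x).2.2
        rw [mul_inv_eq_iff_eq_mul] at this
        exact this.symm
      rw [ha, hb, hc]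
      rfl
    rw [Subgroup.mem_bot]
    apply Subtype.ext
    ext1 y
    have h5 := hx0 (lift y)
    rw [hp1, act_lift, mul_one] at h5
    exact h5

theorem range_minimal [IsSimpleGroup T] (hna : ∃ a b : T, a * b ≠ b * a) :
    IsMinimalNormal (actG (T := T)).range := by
  refine ⟨range_normal, ?_, fun M hM hne hle => le_antisymm hle (range_le hna M hM hne)⟩
  intro h
  obtain ⟨a, b, hab⟩ := hna
  have h1 : ∀ g : Fin 4 → T, g = 1 := by
    intro g
    have h2 : actG g ∈ (actG (T := T)).range := ⟨g, rfl⟩
    rw [h, Subgroup.mem_bot] at h2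
    exact actG_inj ⟨a, b, hab⟩ (h2.trans (map_one actG).symm)
  have h3 : a = 1 := congrFun (h1 fun _ => a) 0
  rw [h3] at hab
  simp at hab

theorem socle_eq [IsSimpleGroup T] (hna : ∃ a b : T, a * b ≠ b * a) :
    socle (GG T) = (actG (T := T)).range := by
  refine le_antisymm (sSup_le ?_) (le_sSup (range_minimal hna))
  intro M hM
  have h := hM.2.2 _ range_normal (range_minimal hna).2.1 (range_le hna M hM.1 hM.2.1)
  exact h.ge

/-- The isomorphism of `T⁴` onto the socle. -/
noncomputable def phi [IsSimpleGroup T] (hna : ∃ a b : T, a * b ≠ b * a) :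
    (Fin 4 → T) ≃* socle (GG T) :=
  (MonoidHom.ofInjective (actG_inj hna)).trans (MulEquiv.subgroupCongr (socle_eq hna).symm)

theorem phi_coe [IsSimpleGroup T] (hna : ∃ a b : T, a * b ≠ b * a) (u : Fin 4 → T) :
    (((phi hna u : socle (GG T)) : GG T) : Perm (T × T × T)) = act u := rfl

theorem proj_eq_iff (g h : Fin 4 → T) : proj g = proj h ↔ ∃ d : T, g = h * fun _ => d := by
  constructor
  · intro e
    refine ⟨(h 3)⁻¹ * g 3, ?_⟩
    simp only [proj, Prod.ext_iff] at e
    obtain ⟨e0, e1, e2⟩ := e
    have key : ∀ i, g i * (g 3)⁻¹ = h i * (h 3)⁻¹ → g i = (h * fun _ => (h 3)⁻¹ * g 3 : Fin 4 → T) i := by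
      intro i hi
      rw [Pi.mul_apply, ← mul_assoc, ← hi, inv_mul_cancel_right]
    funext i
    refine key i ?_
    fin_cases i
    · exact e0
    · exact e1
    · exact e2
    · show g 3 * (g 3)⁻¹ = h 3 * (h 3)⁻¹
      rw [mul_inv_cancel, mul_inv_cancel]
  · rintro ⟨d, rfl⟩
    rw [proj_mul]

theorem stab_iff (x : T × T × T) (u : Fin 4 → T) :
    act u x = x ↔ ∃ t : T, u = fun i => MulAut.conj (lift x i) t := by
  have h1 : act u x = x ↔ proj (u * lift x) = proj (lift x) := by
    rw [proj_lift, act_apply]
  rw [h1, proj_eq_iff]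
  constructor
  · rintro ⟨d, hd⟩
    refine ⟨d, ?_⟩
    funext i
    have := congrFun hd i
    simp only [Pi.mul_apply] at this
    rw [MulAut.conj_apply, ← this, mul_inv_cancel_right]
  · rintro ⟨d, rfl⟩
    refine ⟨d, ?_⟩
    funext i
    simp only [Pi.mul_apply, MulAut.conj_apply, inv_mul_cancel_right]

theorem diagonalType [IsSimpleGroup T] (hna : ∃ a b : T, a * b ≠ b * a) :
    IsDiagonalType (GG T) T 4 := by
  refine ⟨primitive hna, inferInstance, hna, by norm_num, phi hna, fun x => ?_⟩
  refine ⟨fun i => MulAut.conj (lift x i), fun u => ?_⟩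
  rw [phi_coe]
  exact stab_iff x u

end Socle

/-! ### Association schemes -/

section Scheme

variable {Ω : Type}

theorem class_eq {S : Set (Set (Ω × Ω))} (hS : Setoid.IsPartition S) {R R' : Set (Ω × Ω)}
    (hR : R ∈ S) (hR' : R' ∈ S) {p : Ω × Ω} (h : p ∈ R) (h' : p ∈ R') : R = R' := by
  obtain ⟨R0, -, hu⟩ := hS.2 p
  rw [hu R ⟨hR, h⟩, hu R' ⟨hR', h'⟩]

/-- If every invariant colouring is trivial then the group is AS-free. -/
theorem asFree_of [Finite Ω] [Nontrivial Ω] (G : Subgroup (Perm Ω))
    (hG : ∀ c : Ω → Ω → ℕ,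
      (∀ x y, c x y = 0 ↔ x = y) →
      (∀ x y, c x y = c y x) →
      (∀ (i j : ℕ) (x y x' y' : Ω), c x y = c x' y' →
        Set.ncard {z : Ω | c x z = i ∧ c z y = j} =
          Set.ncard {z : Ω | c x' z = i ∧ c z y' = j}) →
      (∀ g ∈ G, ∀ x y, c (g x) (g y) = c x y) →
      ∀ x y x' y' : Ω, x ≠ y → x' ≠ y' → c x y = c x' y') : IsASFree G := by
  classical
  intro S
  constructor
  · rintro ⟨hS, hinv⟩
    set D : Set (Ω × Ω) := {p : Ω × Ω | p.1 = p.2} with hD
    choose cls hcls hu using fun p : Ω × Ω => hS.partition.2 p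
    have hclsS : ∀ p, cls p ∈ S := fun p => (hcls p).1
    have hclsm : ∀ p, p ∈ cls p := fun p => (hcls p).2
    have hce : ∀ p R, R ∈ S → p ∈ R → cls p = R := fun p R hR hp =>
      class_eq hS.partition (hclsS p) hR (hclsm p) hp
    obtain ⟨ι, hι⟩ := exists_injective_nat (Set (Ω × Ω))
    set code : Set (Ω × Ω) → ℕ := fun R => if R = D then 0 else ι R + 1 with hcode
    have hcinj : Function.Injective code := by
      intro R R' h
      simp only [hcode] at h
      split_ifs at h with h1 h2 h2
      · rw [h1, h2]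
      · exact hι (by omega)
    have hc0 : ∀ R, code R = 0 ↔ R = D := by
      intro R
      simp only [hcode]
      split_ifs with h1 <;> simp [h1]
    set c : Ω → Ω → ℕ := fun x y => code (cls (x, y)) with hc
    have key := hG c ?_ ?_ ?_ ?_
    · -- conclusion
      have hne : ∀ R ∈ S, R ≠ D → R = {p : Ω × Ω | p.1 ≠ p.2} := by
        intro R hR hRD
        have hRne : R.Nonempty := by
          rw [Set.nonempty_iff_ne_empty]
          rintro rfl
          exact hS.partition.1 hR
        obtain ⟨⟨x, y⟩, hxy⟩ := hRne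
        have hxy' : x ≠ y := by
          intro h
          exact hRD (class_eq hS.partition hR hS.diagonal hxy h)
        ext ⟨x', y'⟩
        constructor
        · intro h h2
          exact hRD (class_eq hS.partition hR hS.diagonal h h2)
        · intro h
          have h3 := hcinj (key x y x' y' hxy' h)
          rw [hce (x, y) R hR hxy] at h3
          rw [h3]
          exact hclsm _
      obtain ⟨a, b, hab⟩ := exists_pair_ne Ω
      apply Set.Subset.antisymm
      · intro R hR
        by_cases h : R = D
        · left; exact h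
        · right; exact hne R hR h
      · rintro R (rfl | h)
        · exact hS.diagonal
        · rw [Set.mem_singleton_iff.1 h]
          rw [← hne (cls (a, b)) (hclsS _) ?_]
          · exact hclsS _
          · intro h2
            have := hclsm (a, b)
            rw [h2] at this
            exact hab this
    · intro x y
      simp only [hc]
      rw [hc0]
      constructor
      · intro h
        have := hclsm (x, y)
        rw [h] at this
        exact this
      · intro h
        exact hce (x, y) D hS.diagonal h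
    · intro x y
      simp only [hc]
      rw [hce (y, x) (cls (x, y)) (hclsS _) (hS.symmetric _ (hclsS _) _ _ (hclsm _))]
    · intro i j x y x' y' h
      have h2 := hcinj h
      by_cases hi : ∃ R ∈ S, code R = i
      · by_cases hj : ∃ R ∈ S, code R = j
        · obtain ⟨R, hR, rfl⟩ := hi
          obtain ⟨R', hR', rfl⟩ := hj
          have e : ∀ x y : Ω, {z : Ω | c x z = code R ∧ c z y = code R'} =
              {z : Ω | (x, z) ∈ R ∧ (z, y) ∈ R'} := by
            intro x y
            ext z
            simp only [hc, Set.mem_ofPred_eq]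
            constructor
            · rintro ⟨h3, h4⟩
              rw [← hcinj h3, ← hcinj h4]
              exact ⟨hclsm _, hclsm _⟩
            · rintro ⟨h3, h4⟩
              rw [hce _ _ hR h3, hce _ _ hR' h4]
              exact ⟨rfl, rfl⟩
          rw [e, e]
          refine hS.regular R hR R' hR' (cls (x, y)) (hclsS _) x y x' y' (hclsm _) ?_
          rw [h2]
          exact hclsm _
        · push Not at hj
          have e : ∀ x y : Ω, {z : Ω | c x z = i ∧ c z y = j} = ∅ := by
            intro x y
            ext z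
            simp only [Set.mem_ofPred_eq, Set.mem_empty_iff_false, iff_false, not_and]
            exact fun _ h3 => hj _ (hclsS _) h3
          rw [e, e]
      · push Not at hi
        have e : ∀ x y : Ω, {z : Ω | c x z = i ∧ c z y = j} = ∅ := by
          intro x y
          ext z
          simp only [Set.mem_ofPred_eq, Set.mem_empty_iff_false, iff_false, not_and]
          exact fun h3 => absurd h3 (hi _ (hclsS _))
        rw [e, e]
    · intro g hg x y
      simp only [hc]
      congr 1
      refine hce _ _ (hclsS _) ?_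
      rw [← hinv g hg _ (hclsS (x, y))]
      exact ⟨(x, y), hclsm _, rfl⟩
  · rintro rfl
    have hD : ∀ x y : Ω, (x, y) ∈ {p : Ω × Ω | p.1 = p.2} ↔ x = y := fun _ _ => Iff.rfl
    have hE : ∀ x y : Ω, (x, y) ∈ {p : Ω × Ω | p.1 ≠ p.2} ↔ x ≠ y := fun _ _ => Iff.rfl
    refine ⟨⟨⟨?_, ?_⟩, Or.inl rfl, ?_, ?_⟩, ?_⟩
    · obtain ⟨a, b, hab⟩ := exists_pair_ne Ω
      rintro (h | h)
      · have : (a, a) ∈ (∅ : Set (Ω × Ω)) := by rw [h]; exact rfl
        exact this
      · have : (a, b) ∈ (∅ : Set (Ω × Ω)) := by rw [Set.mem_singleton_iff.1 h]; exact hab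
        exact this
    · rintro ⟨x, y⟩
      by_cases hxy : x = y
      · refine ⟨{p : Ω × Ω | p.1 = p.2}, ⟨Or.inl rfl, hxy⟩, ?_⟩
        rintro R ⟨h | h, h2⟩
        · exact h
        · rw [Set.mem_singleton_iff.1 h] at h2
          exact absurd hxy h2
      · refine ⟨{p : Ω × Ω | p.1 ≠ p.2}, ⟨Or.inr rfl, hxy⟩, ?_⟩
        rintro R ⟨h | h, h2⟩
        · rw [h] at h2
          exact absurd h2 hxy
        · exact h
    · rintro R (h | h) x y hxy
      · rw [h] at hxy ⊢
        exact Eq.symm hxy
      · rw [Set.mem_singleton_iff.1 h] at hxy ⊢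
        exact Ne.symm hxy
    · have c1 : ∀ x y : Ω, Set.ncard {z : Ω | x = z ∧ z = y} = if x = y then 1 else 0 := by
        intro x y
        by_cases hxy : x = y
        · subst hxy
          rw [if_pos rfl]
          have : {z : Ω | x = z ∧ z = x} = {x} := by
            ext z
            simp only [Set.mem_ofPred_eq, Set.mem_singleton_iff]
            exact ⟨fun h => h.2, fun h => ⟨h.symm, h⟩⟩
          rw [this, Set.ncard_singleton]
        · rw [if_neg hxy]
          have : {z : Ω | x = z ∧ z = y} = ∅ := by
            ext z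
            simp only [Set.mem_ofPred_eq, Set.mem_empty_iff_false, iff_false]
            rintro ⟨rfl, h⟩
            exact hxy h
          rw [this, Set.ncard_empty]
      have c2 : ∀ x y : Ω, Set.ncard {z : Ω | x = z ∧ z ≠ y} = if x = y then 0 else 1 := by
        intro x y
        by_cases hxy : x = y
        · subst hxy
          rw [if_pos rfl]
          have : {z : Ω | x = z ∧ z ≠ x} = ∅ := by
            ext z
            simp only [Set.mem_ofPred_eq, Set.mem_empty_iff_false, iff_false]
            rintro ⟨rfl, h⟩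
            exact h rfl
          rw [this, Set.ncard_empty]
        · rw [if_neg hxy]
          have : {z : Ω | x = z ∧ z ≠ y} = {x} := by
            ext z
            simp only [Set.mem_ofPred_eq, Set.mem_singleton_iff]
            exact ⟨fun h => h.1.symm, fun h => by subst h; exact ⟨rfl, hxy⟩⟩
          rw [this, Set.ncard_singleton]
      have c3 : ∀ x y : Ω, Set.ncard {z : Ω | x ≠ z ∧ z = y} = if x = y then 0 else 1 := by
        intro x y
        rw [← c2 x y]
        by_cases hxy : x = y
        · subst hxy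
          congr 1
          ext z
          simp only [Set.mem_ofPred_eq]
          exact ⟨fun h => absurd h.2.symm h.1, fun h => absurd h.1.symm h.2⟩
        · have e1 : {z : Ω | x ≠ z ∧ z = y} = {y} := by
            ext z
            simp only [Set.mem_ofPred_eq, Set.mem_singleton_iff]
            exact ⟨fun h => h.2, fun h => by subst h; exact ⟨hxy, rfl⟩⟩
          rw [e1, Set.ncard_singleton, c2, if_neg hxy]
      have c4 : ∀ x y : Ω, Set.ncard {z : Ω | x ≠ z ∧ z ≠ y} =
          Set.ncard (Set.univ : Set Ω) - (if x = y then 1 else 2) := by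
        intro x y
        have e1 : {z : Ω | x ≠ z ∧ z ≠ y} = Set.univ \ {x, y} := by
          ext z
          simp only [Set.mem_ofPred_eq, Set.mem_sdiff, Set.mem_univ, true_and,
            Set.mem_insert_iff, Set.mem_singleton_iff, not_or]
          exact ⟨fun h => ⟨fun h' => h.1 h'.symm, h.2⟩, fun h => ⟨fun h' => h.1 h'.symm, h.2⟩⟩
        rw [e1, Set.ncard_sdiff (Set.subset_univ _) (Set.toFinite _)]
        by_cases hxy : x = y
        · subst hxy
          rw [if_pos rfl, Set.pair_eq_singleton, Set.ncard_singleton]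
        · rw [if_neg hxy, Set.ncard_pair hxy]
      have hcase : ∀ R'' ∈ trivialScheme Ω, ∀ x y x' y' : Ω, (x, y) ∈ R'' → (x', y') ∈ R'' →
          (x = y ↔ x' = y') := by
        rintro R'' (h | h) x y x' y' h1 h2
        · rw [h] at h1 h2
          exact ⟨fun _ => h2, fun _ => h1⟩
        · rw [Set.mem_singleton_iff.1 h] at h1 h2
          exact ⟨fun h3 => absurd h3 h1, fun h3 => absurd h3 h2⟩
      intro R hR R' hR' R'' hR'' x y x' y' h1 h2
      have h3 := hcase R'' hR'' x y x' y' h1 h2
      rcases hR with rfl | hR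
      · rcases hR' with rfl | hR'
        · show Set.ncard {z : Ω | x = z ∧ z = y} = Set.ncard {z : Ω | x' = z ∧ z = y'}
          rw [c1, c1]
          simp only [h3]
        · rw [Set.mem_singleton_iff.1 hR']
          show Set.ncard {z : Ω | x = z ∧ z ≠ y} = Set.ncard {z : Ω | x' = z ∧ z ≠ y'}
          rw [c2, c2]
          simp only [h3]
      · rw [Set.mem_singleton_iff.1 hR]
        rcases hR' with rfl | hR'
        · show Set.ncard {z : Ω | x ≠ z ∧ z = y} = Set.ncard {z : Ω | x' ≠ z ∧ z = y'}
          rw [c3, c3]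
          simp only [h3]
        · rw [Set.mem_singleton_iff.1 hR']
          show Set.ncard {z : Ω | x ≠ z ∧ z ≠ y} = Set.ncard {z : Ω | x' ≠ z ∧ z ≠ y'}
          rw [c4, c4]
          simp only [h3]
    · rintro g hg R (h | h)
      · rw [h]
        ext ⟨x, y⟩
        constructor
        · rintro ⟨⟨u, v⟩, huv, h2⟩
          rw [Prod.mk.injEq] at h2
          have huv' : u = v := huv
          show x = y
          rw [← h2.1, ← h2.2, huv']
        · intro hxy
          have hxy' : x = y := hxy
          refine ⟨(g⁻¹ x, g⁻¹ y), ?_, by simp⟩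
          show g⁻¹ x = g⁻¹ y
          rw [hxy']
      · rw [Set.mem_singleton_iff.1 h]
        ext ⟨x, y⟩
        constructor
        · rintro ⟨⟨u, v⟩, huv, h2⟩
          rw [Prod.mk.injEq] at h2
          have huv' : u ≠ v := huv
          show x ≠ y
          rw [← h2.1, ← h2.2]
          exact fun h3 => huv' (g.injective h3)
        · intro hxy
          have hxy' : x ≠ y := hxy
          refine ⟨(g⁻¹ x, g⁻¹ y), ?_, by simp⟩
          show g⁻¹ x ≠ g⁻¹ y
          exact fun h3 => hxy' (g⁻¹.injective h3)

end Scheme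

theorem asFree : IsASFree (GG A) := by
  have : Nontrivial Gam := ⟨⟨(v1, 1, 1), (1, 1, 1), fun h => by
    have h1 : v1 = (1 : A) := congrArg Prod.fst h
    exact absurd h1 (by decide)⟩⟩
  refine asFree_of (GG A) ?_
  intro c h0 hsym hcoh hinv x y x' y' hxy hxy'
  obtain ⟨hcol, hl⟩ := col c h0 hsym hcoh hinv
  rw [hl x y, hl x' y']
  refine specMain _ hcol _ _ ?_ ?_
  · intro h
    exact hxy (inv_mul_eq_one.1 h)
  · intro h
    exact hxy' (inv_mul_eq_one.1 h)

/-- There is a primitive permutation group of diagonal type, of degree `60³ = 216000` and with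
socle `A₅⁴`, that is AS-free. -/
theorem result :
    ∃ (Ω : Type) (_ : Finite Ω) (G : Subgroup (Perm Ω)),
      Nat.card Ω = 60 ^ 3 ∧ IsDiagonalType G (alternatingGroup (Fin 5)) 4 ∧ IsASFree G := by
  refine ⟨Gam, inferInstance, GG A, ?_, diagonalType hnaA, asFree⟩
  have hA : Nat.card A = 60 := by
    have h2 := two_mul_card_alternatingGroup (α := Fin 5)
    have h3 : Fintype.card (Perm (Fin 5)) = 120 := by
      rw [Fintype.card_perm]; decide
    have h4 : 2 * Fintype.card A = 120 := by
      rw [← h3, ← h2]
    rw [Nat.card_eq_fintype_card]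
    omega
  rw [Nat.card_prod, Nat.card_prod, hA]
  norm_num

end Pool.Agent.Results.MP_26f323_al.DiagonalASFree
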